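import Pool.Agent.L7h88.MW.Stm

/-! # Part BOX of project MW (helper88): one box -/

set_option autoImplicit false

namespace Pool.Agent.L7h10.MW

open Finset MeasureTheory Filter
open Pool.Agent.L7h88.MW
open Pool.Agent.H376R2.MR (er)

theorem pairsR (h : ℕ → ℕ → ℝ) {M G : ℕ} (hMG : M ≤ G) :
    ∑ n ∈ Icc 1 M, ∑ d ∈ n.divisors, h d (n / d) =
      ∑ d ∈ Icc 1 G, ∑ m ∈ Icc 1 G, if d * m ≤ M then h d m else 0 := by
  classical
  have h1 : ∀ n ∈ Icc 1 M, ∑ d ∈ n.divisors, h d (n / d) =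
      ∑ p ∈ ((Icc 1 G ×ˢ Icc 1 G).filter (fun p => p.1 * p.2 ≤ M)).filter (fun p => p.1 * p.2 = n), h p.1 p.2 := by
    intro n hn
    rw [← Nat.sum_divisorsAntidiagonal (f := h)]
    refine Finset.sum_congr ?_ fun _ _ => rfl
    ext p
    rw [Finset.mem_Icc] at hn
    simp only [Nat.mem_divisorsAntidiagonal, mem_filter, mem_product, Finset.mem_Icc]
    constructor
    · rintro ⟨h1, h2⟩
      have hp1 : 1 ≤ p.1 := by
        rcases Nat.eq_zero_or_pos p.1 with h0 | h0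
        · rw [h0, zero_mul] at h1; omega
        · exact h0
      have hp2 : 1 ≤ p.2 := by
        rcases Nat.eq_zero_or_pos p.2 with h0 | h0
        · rw [h0, mul_zero] at h1; omega
        · exact h0
      refine ⟨⟨⟨⟨hp1, ?_⟩, hp2, ?_⟩, by omega⟩, h1⟩
      · have := Nat.le_mul_of_pos_right p.1 hp2; omega
      · have := Nat.le_mul_of_pos_left p.2 hp1; omega
    · rintro ⟨⟨_, _⟩, h1⟩
      exact ⟨h1, by omega⟩
  rw [Finset.sum_congr rfl h1, Finset.sum_fiberwise_of_maps_to, Finset.sum_filter, Finset.sum_product]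
  intro p hp
  simp only [mem_filter, mem_product, Finset.mem_Icc] at hp ⊢
  exact ⟨Nat.mul_pos (by omega) (by omega), hp.2⟩

theorem harm (N : ℕ) : ∑ n ∈ Icc 1 N, (1 : ℝ) / n ≤ 1 + Real.log N := by
  have h := harmonic_le_one_add_log N
  rw [harmonic_eq_sum_Icc] at h
  push_cast at h
  simpa [one_div] using h

theorem tau1 (N : ℕ) : ∑ n ∈ Icc 1 N, (n.divisors.card : ℝ) / n ≤ (1 + Real.log N) ^ 2 := by
  classical
  have h1 : ∀ n ∈ Icc 1 N, (n.divisors.card : ℝ) / n = ∑ d ∈ n.divisors, (1 / (d : ℝ)) * (1 / ((n / d : ℕ) : ℝ)) := by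
    intro n hn
    have h2 : ∀ d ∈ n.divisors, (1 / (d : ℝ)) * (1 / ((n / d : ℕ) : ℝ)) = 1 / n := by
      intro d hd
      rw [one_div_mul_one_div, ← Nat.cast_mul, Nat.mul_div_cancel' (Nat.dvd_of_mem_divisors hd)]
    rw [Finset.sum_congr rfl h2, Finset.sum_const, nsmul_eq_mul, mul_one_div]
  rw [Finset.sum_congr rfl h1, pairsR (fun d m => (1 / (d : ℝ)) * (1 / (m : ℝ))) (le_refl N)]
  calc _ ≤ ∑ d ∈ Icc 1 N, ∑ m ∈ Icc 1 N, (1 / (d : ℝ)) * (1 / (m : ℝ)) := by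
        refine Finset.sum_le_sum fun d _ => Finset.sum_le_sum fun m _ => ?_
        split_ifs
        · exact le_refl _
        · positivity
    _ = (∑ n ∈ Icc 1 N, (1 : ℝ) / n) ^ 2 := by rw [sq, Finset.sum_mul_sum]
    _ ≤ _ := pow_le_pow_left₀ (Finset.sum_nonneg fun _ _ => by positivity) (harm N) 2

theorem tau2 (N : ℕ) : ∑ n ∈ Icc 1 N, (n.divisors.card : ℝ) ^ 2 / n ≤ (1 + Real.log N) ^ 4 := by
  classical
  have h1 : ∀ n ∈ Icc 1 N, (n.divisors.card : ℝ) ^ 2 / n =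
      ∑ d ∈ n.divisors, ((d * (n / d)).divisors.card : ℝ) / ((d : ℝ) * ((n / d : ℕ) : ℝ)) := by
    intro n hn
    have h2 : ∀ d ∈ n.divisors, ((d * (n / d)).divisors.card : ℝ) / ((d : ℝ) * ((n / d : ℕ) : ℝ)) =
        (n.divisors.card : ℝ) / n := by
      intro d hd
      rw [← Nat.cast_mul, Nat.mul_div_cancel' (Nat.dvd_of_mem_divisors hd)]
    rw [Finset.sum_congr rfl h2, Finset.sum_const, nsmul_eq_mul]
    ring
  rw [Finset.sum_congr rfl h1,
    pairsR (fun d m => ((d * m).divisors.card : ℝ) / ((d : ℝ) * (m : ℝ))) (le_refl N)]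
  calc _ ≤ ∑ d ∈ Icc 1 N, ∑ m ∈ Icc 1 N, ((d.divisors.card : ℝ) / d) * ((m.divisors.card : ℝ) / m) := by
        refine Finset.sum_le_sum fun d _ => Finset.sum_le_sum fun m _ => ?_
        split_ifs
        · rw [div_mul_div_comm]
          have : (((d * m).divisors.card : ℕ) : ℝ) ≤ (d.divisors.card : ℝ) * m.divisors.card := by
            rw [Nat.divisors_mul]
            exact_mod_cast Finset.card_mul_le
          gcongr
        · positivity
    _ = (∑ n ∈ Icc 1 N, (n.divisors.card : ℝ) / n) ^ 2 := by rw [sq, Finset.sum_mul_sum]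
    _ ≤ ((1 + Real.log N) ^ 2) ^ 2 :=
        pow_le_pow_left₀ (Finset.sum_nonneg fun _ _ => by positivity) (tau1 N) 2
    _ = _ := by ring

theorem tau3 (N : ℕ) : ∑ n ∈ Icc 1 N, (n.divisors.card : ℝ) ^ 2 ≤ N * (1 + Real.log N) ^ 4 := by
  calc _ ≤ ∑ n ∈ Icc 1 N, N * ((n.divisors.card : ℝ) ^ 2 / n) := by
        refine Finset.sum_le_sum fun n hn => ?_
        rw [Finset.mem_Icc] at hn
        have h1 : (0 : ℝ) < n := by exact_mod_cast hn.1
        have h2 : (n : ℝ) ≤ N := by exact_mod_cast hn.2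
        rw [mul_div_assoc', le_div_iff₀ h1, mul_comm]
        exact mul_le_mul_of_nonneg_right h2 (by positivity)
    _ = N * ∑ n ∈ Icc 1 N, ((n.divisors.card : ℝ) ^ 2 / n) := by rw [Finset.mul_sum]
    _ ≤ _ := mul_le_mul_of_nonneg_left (tau2 N) (Nat.cast_nonneg _)

theorem er_two {η : ℝ} {d k : ℕ} (hd : 1 ≤ d) (hk : 1 ≤ k) :
    er (-η) (Real.log d) * er (-η) (Real.log k) = er (-η) (Real.log ((d * k : ℕ) : ℝ)) := by
  have hd' : (d : ℝ) ≠ 0 := by positivity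
  have hk' : (k : ℝ) ≠ 0 := by positivity
  push_cast
  rw [Real.log_mul hd' hk']
  unfold er
  rw [← Complex.exp_add]
  congr 1
  push_cast
  ring

theorem prodDS (f : ℕ → ℂ) (s t : Finset ℕ) (M : ℕ) (F : ℝ) (hF : 0 ≤ F)
    (hs : ∀ k ∈ s, ∀ e ∈ t, 1 ≤ k ∧ 1 ≤ e ∧ k * e ≤ M) (hf : ∀ k ∈ s, ‖f k‖ ≤ F) :
    ∃ c : ℕ → ℂ, (∀ n, ‖c n‖ ≤ F * n.divisors.card) ∧
      ∀ η, DS f s η * DS (fun _ => 1) t η = DS c (Icc 1 M) η := by
  classical
  refine ⟨fun n => ∑ x ∈ (s ×ˢ t).filter (fun x => x.1 * x.2 = n), f x.1, ?_, ?_⟩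
  · intro n
    have hcard : ((s ×ˢ t).filter (fun x => x.1 * x.2 = n)).card ≤ n.divisors.card := by
      refine Finset.card_le_card_of_injOn (fun x => x.1) ?_ ?_
      · intro x hx
        rw [Finset.mem_coe, Finset.mem_filter, Finset.mem_product] at hx
        obtain ⟨⟨h1, h2⟩, h3⟩ := hx
        obtain ⟨h4, h5, _⟩ := hs _ h1 _ h2
        rw [Finset.mem_coe, Nat.mem_divisors]
        refine ⟨Dvd.intro _ h3, ?_⟩
        rw [← h3]
        positivity
      · intro x hx y hy hxy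
        rw [Finset.mem_coe, Finset.mem_filter, Finset.mem_product] at hx hy
        have hx1 : 0 < x.1 := (hs _ hx.1.1 _ hx.1.2).1
        have hxy' : x.1 = y.1 := hxy
        refine Prod.ext hxy' ?_
        have h := hx.2.trans hy.2.symm
        rw [← hxy'] at h
        exact Nat.eq_of_mul_eq_mul_left hx1 h
    calc _ ≤ ∑ x ∈ (s ×ˢ t).filter (fun x => x.1 * x.2 = n), ‖f x.1‖ := norm_sum_le _ _
      _ ≤ ∑ x ∈ (s ×ˢ t).filter (fun x => x.1 * x.2 = n), F := by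
          refine Finset.sum_le_sum fun x hx => ?_
          rw [Finset.mem_filter, Finset.mem_product] at hx
          exact hf _ hx.1.1
      _ = F * ((s ×ˢ t).filter (fun x => x.1 * x.2 = n)).card := by
          rw [Finset.sum_const, nsmul_eq_mul, mul_comm]
      _ ≤ _ := by
          apply mul_le_mul_of_nonneg_left _ hF
          exact_mod_cast hcard
  · intro η
    unfold DS
    rw [Finset.sum_mul_sum, ← Finset.sum_product']
    have h1 : ∀ n ∈ Icc 1 M, (∑ x ∈ (s ×ˢ t).filter (fun x => x.1 * x.2 = n), f x.1) * er (-η) (Real.log n) =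
        ∑ x ∈ (s ×ˢ t).filter (fun x => x.1 * x.2 = n), f x.1 * er (-η) (Real.log ((x.1 * x.2 : ℕ) : ℝ)) := by
      intro n hn
      rw [Finset.sum_mul]
      refine Finset.sum_congr rfl fun x hx => ?_
      rw [Finset.mem_filter] at hx
      rw [hx.2]
    rw [Finset.sum_congr rfl h1, Finset.sum_fiberwise_of_maps_to]
    · refine Finset.sum_congr rfl fun x hx => ?_
      rw [Finset.mem_product] at hx
      obtain ⟨h4, h5, _⟩ := hs _ hx.1 _ hx.2
      rw [← er_two h4 h5]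
      ring
    · intro x hx
      rw [Finset.mem_product] at hx
      obtain ⟨h4, h5, h6⟩ := hs _ hx.1 _ hx.2
      exact Finset.mem_Icc.2 ⟨Nat.mul_pos h4 h5, h6⟩

theorem cont_DS (f : ℕ → ℂ) (s : Finset ℕ) : Continuous (DS f s) := by
  unfold DS er
  fun_prop

theorem core {C0 : ℝ} (hC0 : 1 ≤ C0)
    (hMVT : ∀ (f : ℕ → ℂ) (s : Finset ℕ) (M x L : ℝ), 1 ≤ M → (∀ n ∈ s, 1 ≤ n ∧ (n : ℝ) ≤ M) → 0 ≤ L →
      ∫ η in x..(x + L), ‖DS f s η‖ ^ 2 ≤ C0 * (L + M) * ∑ n ∈ s, ‖f n‖ ^ 2)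
    (X : ℝ → ℂ) (hXc : Continuous X) (f : ℕ → ℂ) (s t : Finset ℕ) (F Z M x L : ℝ) (hF : 0 ≤ F) (hM : 1 ≤ M)
    (hL : 0 ≤ L) (hs : ∀ k ∈ s, ∀ e ∈ t, 1 ≤ k ∧ 1 ≤ e ∧ (k : ℝ) * e ≤ M) (hf : ∀ k ∈ s, ‖f k‖ ≤ F)
    (hX : ∀ η ∈ Set.Icc x (x + L), ‖X η‖ ≤ Z) :
    ∫ η in x..(x + L), ‖X η * (DS f s η * DS (fun _ => 1) t η)‖ ^ 2 ≤
      Z ^ 2 * (C0 * (L + M) * (F ^ 2 * (M * (1 + Real.log M) ^ 4))) := by
  obtain ⟨c, hc, hc2⟩ := prodDS f s t ⌊M⌋₊ F hF (fun k hk e he => by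
    obtain ⟨h1, h2, h3⟩ := hs k hk e he
    refine ⟨h1, h2, Nat.le_floor ?_⟩
    push_cast
    exact h3) hf
  have hxL : x ≤ x + L := by linarith
  have hZ : 0 ≤ Z := (norm_nonneg _).trans (hX x ⟨le_refl _, hxL⟩)
  have hfl : (⌊M⌋₊ : ℝ) ≤ M := Nat.floor_le (by linarith)
  have hfl1 : 1 ≤ ⌊M⌋₊ := Nat.le_floor (by simpa using hM)
  have h1 : ∫ η in x..(x + L), ‖X η * (DS f s η * DS (fun _ => 1) t η)‖ ^ 2 ≤
      ∫ η in x..(x + L), Z ^ 2 * ‖DS c (Icc 1 ⌊M⌋₊) η‖ ^ 2 := by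
    apply intervalIntegral.integral_mono_on hxL
    · apply Continuous.intervalIntegrable
      have := cont_DS f s
      have := cont_DS (fun _ => 1) t
      fun_prop
    · apply Continuous.intervalIntegrable
      have := cont_DS c (Icc 1 ⌊M⌋₊)
      fun_prop
    · intro η hη
      rw [hc2 η, norm_mul, mul_pow]
      exact mul_le_mul_of_nonneg_right (pow_le_pow_left₀ (norm_nonneg _) (hX η hη) 2) (by positivity)
  refine h1.trans ?_
  rw [intervalIntegral.integral_const_mul]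
  apply mul_le_mul_of_nonneg_left _ (by positivity)
  refine (hMVT c (Icc 1 ⌊M⌋₊) M x L hM (fun n hn => ?_) hL).trans ?_
  · rw [Finset.mem_Icc] at hn
    refine ⟨hn.1, le_trans ?_ hfl⟩
    exact_mod_cast hn.2
  · apply mul_le_mul_of_nonneg_left _ (by positivity)
    calc _ ≤ ∑ n ∈ Icc 1 ⌊M⌋₊, F ^ 2 * (n.divisors.card : ℝ) ^ 2 := by
          refine Finset.sum_le_sum fun n _ => ?_
          rw [← mul_pow]
          exact pow_le_pow_left₀ (norm_nonneg _) (hc n) 2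
      _ = F ^ 2 * ∑ n ∈ Icc 1 ⌊M⌋₊, (n.divisors.card : ℝ) ^ 2 := by rw [Finset.mul_sum]
      _ ≤ F ^ 2 * (⌊M⌋₊ * (1 + Real.log ⌊M⌋₊) ^ 4) := mul_le_mul_of_nonneg_left (tau3 _) (by positivity)
      _ ≤ _ := by
          have h5 : Real.log ⌊M⌋₊ ≤ Real.log M := Real.log_le_log (by exact_mod_cast hfl1) hfl
          have h6 : 0 ≤ Real.log (⌊M⌋₊ : ℝ) := Real.log_natCast_nonneg _
          gcongr

/-- the bound SAV for one coefficient function, over blocks `(a, b]`, `b ≤ 2 a + 1` -/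
def SB (f : ℕ → ℂ) (A : ℕ) (C : ℝ) (K N0 : ℕ) : Prop := ∀ (a b : ℕ) (η : ℝ), N0 ≤ a → a ≤ b → b ≤ 2 * a + 1 →
  Real.log (2 * a) ^ K ≤ |η| → |η| ≤ (a : ℝ) ^ 30 → ‖DS f (Ioc a b) η‖ ≤ C * a / Real.log a ^ A

theorem sb_of (f : ℕ → ℂ) (A : ℕ) (C : ℝ) (hC : 0 ≤ C) (K N0 : ℕ) (h : ∀ (N N' : ℕ) (η : ℝ), N0 ≤ N → N ≤ N' → N' ≤ 2 * N →
    Real.log N ^ K ≤ |η| → |η| ≤ (N : ℝ) ^ 30 → ‖DS f (Ioc N N') η‖ ≤ C * N / Real.log N ^ A) :
    SB f A (3 * C) K (N0 + 3) := by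
  intro a b η ha hab hb h1 h2
  have ha3 : (3 : ℝ) ≤ a := by exact_mod_cast (by omega : 3 ≤ a)
  have hl : 0 < Real.log a := Real.log_pos (by linarith)
  have hl2 : Real.log a ≤ Real.log (2 * a) := Real.log_le_log (by linarith) (by linarith)
  have hl2' : Real.log a ^ K ≤ |η| := (pow_le_pow_left₀ hl.le hl2 K).trans h1
  by_cases hb2 : b ≤ 2 * a
  · refine (h a b η (by omega) hab hb2 hl2' h2).trans ?_
    apply div_le_div_of_nonneg_right _ (by positivity)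
    nlinarith
  · have hbe : b = 2 * a + 1 := by omega
    have hsplit : DS f (Ioc a b) η = DS f (Ioc a (2 * a)) η + DS f (Ioc (2 * a) b) η := by
      unfold DS
      rw [← Finset.Ioc_union_Ioc_eq_Ioc (by omega : a ≤ 2 * a) (by omega : 2 * a ≤ b),
        Finset.sum_union (Finset.Ioc_disjoint_Ioc_of_le (le_refl _))]
    rw [hsplit]
    have e1 := h a (2 * a) η (by omega) (by omega) (le_refl _) hl2' h2
    have e2 := h (2 * a) b η (by omega) (by omega) (by omega) (by push_cast; exact h1) (by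
      refine h2.trans ?_
      apply pow_le_pow_left₀ (by linarith)
      push_cast
      linarith)
    push_cast at e2
    have e3 : C * (2 * a) / Real.log (2 * a) ^ A ≤ C * (2 * a) / Real.log a ^ A := by
      apply div_le_div_of_nonneg_left (by positivity) (by positivity)
      exact pow_le_pow_left₀ hl.le hl2 A
    calc _ ≤ C * a / Real.log a ^ A + C * (2 * a) / Real.log a ^ A :=
          (norm_add_le _ _).trans (add_le_add e1 (e2.trans e3))
      _ = _ := by ring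

theorem side {C0 : ℝ} (hC0 : 1 ≤ C0)
    (hMVT : ∀ (f : ℕ → ℂ) (s : Finset ℕ) (M x L : ℝ), 1 ≤ M → (∀ n ∈ s, 1 ≤ n ∧ (n : ℝ) ≤ M) → 0 ≤ L →
      ∫ η in x..(x + L), ‖DS f s η‖ ^ 2 ≤ C0 * (L + M) * ∑ n ∈ s, ‖f n‖ ^ 2)
    {A C K1 N1' : ℕ} {C1 : ℝ} (hC1 : 0 ≤ C1) {f1 : ℕ → ℂ} (hf1 : SB f1 (A + C + 6) C1 K1 N1')
    {N : ℕ} (hN : 4096 ≤ N) (hl2 : 2 ≤ Real.log N) (e2 : Real.log N ^ C ≤ (N : ℝ) ^ (3 / 7 : ℝ))
    (e3 : (N1' : ℝ) ≤ (N : ℝ) ^ (1 / 21 : ℝ)) {V : ℕ} (hV : (N : ℝ) ^ (1 / 21 : ℝ) ≤ V) {a b : ℕ} (hVa : V ≤ a)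
    (hab : a ≤ b) (hb : b ≤ 2 * a + 1) (ha : (a : ℝ) ≤ 64 * √(N : ℝ)) (f2 : ℕ → ℂ) (s t : Finset ℕ)
    (hf2 : ∀ k ∈ s, ‖f2 k‖ ≤ 2 * Real.log N) (hst : ∀ k ∈ s, ∀ e ∈ t, 1 ≤ k ∧ 1 ≤ e ∧ (k : ℝ) * e ≤ 64 * N / a)
    {x L : ℝ} (hL0 : 0 ≤ L) (hL : L ≤ √(N : ℝ) * Real.log N ^ C)
    (hη : ∀ η ∈ Set.Icc x (x + L), Real.log N ^ (2 * K1) ≤ |η| ∧ |η| ≤ N * Real.log N ^ C) :
    ∫ η in x..(x + L), ‖DS f1 (Ioc a b) η * (DS f2 s η * DS (fun _ => 1) t η)‖ ^ 2 ≤
      (2654208 * C0 * (C1 * 21 ^ (A + C + 6)) ^ 2) * N ^ 2 / Real.log N ^ A := by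
  set l := Real.log N with hldef
  set A' := A + C + 6 with hA'
  have hN' : (4096 : ℝ) ≤ N := by exact_mod_cast hN
  have hN0 : (0 : ℝ) < N := by linarith
  have hpow1 : (1 : ℝ) ≤ (N : ℝ) ^ (1 / 21 : ℝ) := Real.one_le_rpow (by linarith) (by norm_num)
  have hVa' : (V : ℝ) ≤ a := by exact_mod_cast hVa
  have haN : (N : ℝ) ^ (1 / 21 : ℝ) ≤ a := hV.trans hVa'
  have ha1 : (1 : ℝ) ≤ a := hpow1.trans haN
  have ha0 : (0 : ℝ) < a := by linarith
  have hs64 : (64 : ℝ) ≤ √(N : ℝ) := by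
    apply Real.le_sqrt_of_sq_le
    norm_num
    exact hN
  have hsq : √(N : ℝ) * √(N : ℝ) = N := Real.mul_self_sqrt hN0.le
  have hsN : √(N : ℝ) ≤ N := by nlinarith
  -- logarithm of a
  have hla : l / 21 ≤ Real.log a := by
    have : Real.log ((N : ℝ) ^ (1 / 21 : ℝ)) ≤ Real.log a := Real.log_le_log (by linarith) haN
    rw [Real.log_rpow hN0] at this
    linarith
  have hl2a : Real.log (2 * a) ≤ 2 * l := by
    have h1 : Real.log (2 * a) ≤ Real.log ((N : ℝ) ^ 2) := by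
      apply Real.log_le_log (by linarith)
      nlinarith
    rw [Real.log_pow] at h1
    exact_mod_cast h1
  have hX : ∀ η ∈ Set.Icc x (x + L), ‖DS f1 (Ioc a b) η‖ ≤ C1 * 21 ^ A' * a / l ^ A' := by
    intro η h
    obtain ⟨h1, h2⟩ := hη η h
    have hla0 : 0 ≤ Real.log (2 * a) := Real.log_nonneg (by linarith)
    refine (hf1 a b η ?_ hab hb ?_ ?_).trans ?_
    · have : (N1' : ℝ) ≤ a := e3.trans haN
      exact_mod_cast this
    · calc Real.log (2 * a) ^ K1 ≤ (l ^ 2) ^ K1 := by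
            apply pow_le_pow_left₀ hla0
            nlinarith
        _ = l ^ (2 * K1) := by rw [← pow_mul]
        _ ≤ _ := h1
    · refine h2.trans ?_
      calc (N : ℝ) * l ^ C ≤ N * (N : ℝ) ^ (3 / 7 : ℝ) := mul_le_mul_of_nonneg_left e2 hN0.le
        _ = ((N : ℝ) ^ (1 / 21 : ℝ)) ^ 30 := by
            rw [← Real.rpow_natCast, ← Real.rpow_mul hN0.le, ← Real.rpow_one_add' hN0.le (by norm_num)]
            norm_num
        _ ≤ (a : ℝ) ^ 30 := pow_le_pow_left₀ (by linarith) haN 30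
    · have h3 : (l / 21) ^ A' ≤ Real.log a ^ A' := pow_le_pow_left₀ (by linarith) hla _
      have h4 : 0 < (l / 21) ^ A' := by
        have : 0 < l / 21 := by linarith
        positivity
      calc C1 * a / Real.log a ^ A' ≤ C1 * a / (l / 21) ^ A' := div_le_div_of_nonneg_left (by positivity) h4 h3
        _ = _ := by
            have : l ≠ 0 := by linarith
            rw [div_pow]
            field_simp
  have haM : (1 : ℝ) ≤ 64 * N / a := by
    rw [le_div_iff₀ ha0]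
    nlinarith
  have hc := core hC0 hMVT (DS f1 (Ioc a b)) (cont_DS _ _) f2 s t (2 * l) _ (64 * N / a) x L (by linarith) haM hL0
    hst hf2 hX
  refine hc.trans ?_
  have hlogM : 1 + Real.log (64 * N / a) ≤ 3 * l := by
    have h1 : Real.log (64 * N / a) ≤ Real.log ((N : ℝ) ^ 2) := by
      apply Real.log_le_log (by linarith)
      rw [div_le_iff₀ ha0]
      nlinarith
    rw [Real.log_pow] at h1
    push_cast at h1
    linarith
  have hlogM0 : 0 ≤ 1 + Real.log (64 * N / a) := by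
    have := Real.log_nonneg haM
    linarith
  have hl0 : 0 < l := by linarith
  have hlC : 1 ≤ l ^ C := one_le_pow₀ (by linarith)
  have hkey : (a : ℝ) ^ 2 * ((L + 64 * N / a) * (64 * N / a)) ≤ 8192 * (N ^ 2 * l ^ C) := by
    have h1 : (a : ℝ) ^ 2 * ((L + 64 * N / a) * (64 * N / a)) = 64 * N * (a * L) + 4096 * N ^ 2 := by
      field_simp
      ring
    rw [h1]
    have h2 : (a : ℝ) * L ≤ 64 * √(N : ℝ) * (√(N : ℝ) * l ^ C) := mul_le_mul ha hL hL0 (by positivity)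
    have h3 : 64 * √(N : ℝ) * (√(N : ℝ) * l ^ C) = 64 * N * l ^ C := by
      rw [show 64 * √(N : ℝ) * (√(N : ℝ) * l ^ C) = 64 * (√(N : ℝ) * √(N : ℝ)) * l ^ C from by ring, hsq]
    rw [h3] at h2
    nlinarith [mul_le_mul_of_nonneg_left h2 (by positivity : 0 ≤ 64 * (N : ℝ)),
      mul_le_mul_of_nonneg_left hlC (by positivity : 0 ≤ 4096 * (N : ℝ) ^ 2)]
  have hlog4 : (1 + Real.log (64 * N / a)) ^ 4 ≤ (3 * l) ^ 4 := pow_le_pow_left₀ hlogM0 hlogM 4
  have hE : l ^ (C + 6) / l ^ (2 * A') ≤ 1 / l ^ A := by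
    rw [div_le_div_iff₀ (by positivity) (by positivity), one_mul, ← pow_add]
    apply pow_le_pow_right₀ (by linarith)
    omega
  calc (C1 * 21 ^ A' * a / l ^ A') ^ 2 * (C0 * (L + 64 * N / a) * ((2 * l) ^ 2 * (64 * N / a * (1 + Real.log (64 * N / a)) ^ 4)))
      = (C0 * (C1 * 21 ^ A') ^ 2 * (4 * l ^ 2) / l ^ (2 * A')) * ((a : ℝ) ^ 2 * ((L + 64 * N / a) * (64 * N / a))) *
          (1 + Real.log (64 * N / a)) ^ 4 := by
        rw [div_pow, ← pow_mul, mul_comm A' 2]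
        ring
    _ ≤ (C0 * (C1 * 21 ^ A') ^ 2 * (4 * l ^ 2) / l ^ (2 * A')) * (8192 * (N ^ 2 * l ^ C)) * (3 * l) ^ 4 := by
        gcongr
    _ = (2654208 * C0 * (C1 * 21 ^ A') ^ 2) * N ^ 2 * (l ^ (C + 6) / l ^ (2 * A')) := by
        rw [pow_add]
        ring
    _ ≤ (2654208 * C0 * (C1 * 21 ^ A') ^ 2) * N ^ 2 * (1 / l ^ A) := mul_le_mul_of_nonneg_left hE (by positivity)
    _ = _ := by ring

theorem kapB {N B : ℕ} (hl : 2 ≤ Real.log N) : 1 < kap N B ∧ kap N B ≤ 2 := by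
  have hl : 1 ≤ Real.log N := by linarith
  unfold kap
  have h1 : 1 ≤ Real.log N ^ B := one_le_pow₀ hl
  constructor
  · have : 0 < 1 / Real.log N ^ B := by positivity
    linarith
  · have : 1 / Real.log N ^ B ≤ 1 := by
      rw [div_le_one (by linarith)]
      exact h1
    linarith

theorem gr_le {N B : ℕ} (h1 : 1 < kap N B) (i : ℕ) : (gr N B i : ℝ) ≤ kap N B ^ i := Nat.floor_le (by positivity)

/-- the block after `a = max V (gr i)` -/
theorem blk {N B : ℕ} (h1 : 1 < kap N B) (h2 : kap N B ≤ 2) {V i : ℕ} (h : V < gr N B (i + 1)) :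
    max V (gr N B i) ≤ gr N B (i + 1) ∧ gr N B (i + 1) ≤ 2 * max V (gr N B i) + 1 ∧
      ((max V (gr N B i) : ℕ) : ℝ) ≤ 2 * kap N B ^ i := by
  have hp : 0 < kap N B ^ i := by positivity
  have h3 : (gr N B (i + 1) : ℝ) ≤ 2 * kap N B ^ i := by
    have := gr_le h1 (i + 1)
    rw [pow_succ] at this
    nlinarith
  have h4 : gr N B i ≤ gr N B (i + 1) := Nat.floor_mono (pow_le_pow_right₀ h1.le (Nat.le_succ i))
  refine ⟨max_le h.le h4, ?_, ?_⟩
  · have h5 : kap N B ^ i < gr N B i + 1 := Nat.lt_floor_add_one _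
    have h6 : (gr N B (i + 1) : ℝ) < 2 * gr N B i + 2 := by linarith
    have h7 : gr N B (i + 1) < 2 * gr N B i + 2 := by exact_mod_cast h6
    have := le_max_right V (gr N B i)
    omega
  · rw [Nat.cast_max]
    refine max_le ?_ ?_
    · have : (V : ℝ) ≤ gr N B (i + 1) := by exact_mod_cast h.le
      linarith
    · have := gr_le h1 i
      linarith

theorem prod_le {N B N1 N2 V i j h : ℕ} (h1 : 1 < kap N B) (h2 : kap N B ≤ 2) (hN2 : N2 ≤ 16 * N) (hV : 1 ≤ V)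
    (hi : V < gr N B (i + 1)) (hh : h = i + j) :
    ∀ k ∈ (Ioc (gr N B j) (gr N B (j + 1))).filter (fun d => V < d),
      ∀ e ∈ Ioc ⌊(N1 : ℝ) / kap N B ^ h⌋₊ ⌊(N2 : ℝ) / kap N B ^ h⌋₊,
        1 ≤ k ∧ 1 ≤ e ∧ (k : ℝ) * e ≤ 64 * N / ((max V (gr N B i) : ℕ) : ℝ) := by
  intro k hk e he
  rw [Finset.mem_filter, Finset.mem_Ioc] at hk
  rw [Finset.mem_Ioc] at he
  refine ⟨by omega, by omega, ?_⟩
  have hb := (blk h1 h2 hi).2.2
  have hpi : 0 < kap N B ^ i := by positivity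
  have hpj : 0 < kap N B ^ j := by positivity
  have hph : 0 < kap N B ^ h := by positivity
  have hm : (0 : ℝ) < ((max V (gr N B i) : ℕ) : ℝ) := by
    have : 0 < max V (gr N B i) := lt_of_lt_of_le hV (le_max_left _ _)
    exact_mod_cast this
  have hk2 : (k : ℝ) ≤ kap N B ^ (j + 1) := le_trans (by exact_mod_cast hk.1.2) (gr_le h1 (j + 1))
  have he2 : (e : ℝ) ≤ N2 / kap N B ^ h := le_trans (by exact_mod_cast he.2) (Nat.floor_le (by positivity))
  have hN2' : (N2 : ℝ) ≤ 16 * N := by exact_mod_cast hN2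
  rw [le_div_iff₀ hm]
  calc (k : ℝ) * e * ((max V (gr N B i) : ℕ) : ℝ) ≤ kap N B ^ (j + 1) * (N2 / kap N B ^ h) * (2 * kap N B ^ i) := by
        gcongr
    _ = 2 * kap N B * N2 := by
        rw [hh]
        field_simp
        ring
    _ ≤ 2 * 2 * (16 * N) := by gcongr
    _ = 64 * N := by ring

theorem filt (V p q : ℕ) : (Ioc p q).filter (fun d => V < d) = Ioc (max V p) q := by
  ext d
  simp only [Finset.mem_filter, Finset.mem_Ioc, max_lt_iff]
  tauto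

theorem s_BOX (hM : S_MVT) (hS : S_SAV) : S_BOX := by
  classical
  obtain ⟨C0, hC0, hMVT⟩ := hM
  intro A C B
  obtain ⟨C1, K1, N1', hC1, hsav⟩ := hS (A + C + 6)
  have hmu : SB (fun n => ((ArithmeticFunction.moebius n : ℤ) : ℂ)) (A + C + 6) (3 * C1) K1 (N1' + 3) :=
    sb_of _ _ _ hC1 _ _ (fun N N' η h1 h2 h3 h4 h5 => (hsav N N' η h1 h2 h3 h4 h5).1)
  have hla : SB (fun n => ((ArithmeticFunction.vonMangoldt n : ℝ) : ℂ)) (A + C + 6) (3 * C1) K1 (N1' + 3) :=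
    sb_of _ _ _ hC1 _ _ (fun N N' η h1 h2 h3 h4 h5 => (hsav N N' η h1 h2 h3 h4 h5).2)
  have E1 : ∀ᶠ N : ℕ in atTop, 4096 ≤ N := eventually_ge_atTop _
  have E2 : ∀ᶠ N : ℕ in atTop, 2 ≤ Real.log (N : ℝ) :=
    (Real.tendsto_log_atTop.comp tendsto_natCast_atTop_atTop).eventually_ge_atTop 2
  have E3 : ∀ᶠ N : ℕ in atTop, Real.log (N : ℝ) ^ C ≤ (N : ℝ) ^ (3 / 7 : ℝ) := by
    have h := (isLittleO_log_rpow_rpow_atTop (C : ℝ) (show (0 : ℝ) < 3 / 7 by norm_num)).bound one_pos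
    have h' := tendsto_natCast_atTop_atTop (R := ℝ) |>.eventually h
    filter_upwards [h'] with N hN
    rw [one_mul, Real.rpow_natCast, Real.norm_of_nonneg (by positivity), Real.norm_of_nonneg (by positivity)] at hN
    exact hN
  have E4 : ∀ᶠ N : ℕ in atTop, ((N1' + 3 : ℕ) : ℝ) ≤ (N : ℝ) ^ (1 / 21 : ℝ) :=
    ((tendsto_rpow_atTop (show (0 : ℝ) < 1 / 21 by norm_num)).comp
      tendsto_natCast_atTop_atTop).eventually_ge_atTop _
  obtain ⟨N0, hN0⟩ := Filter.eventually_atTop.1 (E1.and (E2.and (E3.and E4)))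
  refine ⟨2654208 * C0 * (3 * C1 * 21 ^ (A + C + 6)) ^ 2, 2 * K1, N0, by positivity, ?_⟩
  intro N N1 N2 V i j x L hN hNN1 h12 hN2 hV1 hV2 hL0 hL hη
  obtain ⟨e1, e2, e3, e4⟩ := hN0 N hN
  obtain ⟨hk1, hk2⟩ := kapB (B := B) e2
  have hN4 : (4096 : ℝ) ≤ N := by exact_mod_cast e1
  have hN0 : (0 : ℝ) < N := by linarith
  have hVp : (1 : ℝ) ≤ V := (Real.one_le_rpow (by linarith) (by norm_num)).trans hV1
  have hV : 1 ≤ V := by exact_mod_cast hVp
  have hRHS : 0 ≤ 2654208 * C0 * (3 * C1 * 21 ^ (A + C + 6)) ^ 2 * (N : ℝ) ^ 2 / Real.log N ^ A := by positivity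
  have hsq : √(N : ℝ) * √(N : ℝ) = N := Real.mul_self_sqrt hN0.le
  have hs0 : 0 < √(N : ℝ) := Real.sqrt_pos.2 hN0
  by_cases hi : V < gr N B (i + 1)
  swap
  · have h0 : ∀ η, PM N B V i η = 0 := by
      intro η
      unfold PM
      rw [filt, Finset.Ioc_eq_empty (by have := le_max_left V (gr N B i); omega)]
      simp [DS]
    simp only [h0, zero_mul, norm_zero]
    simpa using hRHS
  by_cases hj : V < gr N B (j + 1)
  swap
  · have h0 : ∀ η, PQ N B V j η = 0 := by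
      intro η
      unfold PQ
      rw [filt, Finset.Ioc_eq_empty (by have := le_max_left V (gr N B j); omega)]
      simp [DS]
    simp only [h0, zero_mul, mul_zero, norm_zero]
    simpa using hRHS
  by_cases he : kap N B ^ (i + j) ≤ N2
  swap
  · have h0 : ∀ η, PE N B N1 N2 (i + j) η = 0 := by
      intro η
      unfold PE
      have : ⌊(N2 : ℝ) / kap N B ^ (i + j)⌋₊ = 0 := by
        rw [Nat.floor_eq_zero, div_lt_one (by positivity)]
        exact not_le.1 he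
      rw [this, Finset.Ioc_eq_empty (by omega)]
      simp [DS]
    simp only [h0, mul_zero, norm_zero]
    simpa using hRHS
  have hN2' : (N2 : ℝ) ≤ 16 * N := by exact_mod_cast hN2
  have hkij : kap N B ^ (i + j) ≤ 16 * N := he.trans hN2'
  have hpi1 : 1 ≤ kap N B ^ i := one_le_pow₀ hk1.le
  have hpj1 : 1 ≤ kap N B ^ j := one_le_pow₀ hk1.le
  have hlog : Real.log (32 * N) ≤ 2 * Real.log N := by
    have h1 : Real.log (32 * N) ≤ Real.log ((N : ℝ) ^ 2) := Real.log_le_log (by linarith) (by nlinarith)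
    rw [Real.log_pow] at h1
    exact_mod_cast h1
  rw [pow_add] at hkij
  by_cases hc : ((max V (gr N B i) : ℕ) : ℝ) ≤ √(N : ℝ)
  · have hb := blk hk1 hk2 hi
    have hres := side hC0 hMVT (by positivity : 0 ≤ 3 * C1) hmu e1 e2 e3 e4 hV1 (le_max_left V (gr N B i)) hb.1 hb.2.1
      (by linarith) (fun n => ((ArithmeticFunction.vonMangoldt n : ℝ) : ℂ))
      ((Ioc (gr N B j) (gr N B (j + 1))).filter (fun d => V < d))
      (Ioc ⌊(N1 : ℝ) / kap N B ^ (i + j)⌋₊ ⌊(N2 : ℝ) / kap N B ^ (i + j)⌋₊) (by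
        intro k hk
        rw [Finset.mem_filter, Finset.mem_Ioc] at hk
        have hk0 : (0 : ℝ) < k := by exact_mod_cast (by omega : 0 < k)
        have hk3 : (k : ℝ) ≤ kap N B ^ (j + 1) := le_trans (by exact_mod_cast hk.1.2) (gr_le hk1 (j + 1))
        have hk4 : (k : ℝ) ≤ 32 * N := by
          rw [pow_succ] at hk3
          nlinarith
        rw [Complex.norm_real, Real.norm_of_nonneg ArithmeticFunction.vonMangoldt_nonneg]
        exact ArithmeticFunction.vonMangoldt_le_log.trans ((Real.log_le_log hk0 hk4).trans hlog))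
      (prod_le hk1 hk2 hN2 hV hi rfl) hL0 hL hη
    refine le_trans (le_of_eq ?_) hres
    congr 1
    funext η
    congr 2
    rw [mul_assoc]
    unfold PM PQ PE
    rw [filt V (gr N B i)]
  · have hb := blk hk1 hk2 hj
    have hbi := blk hk1 hk2 hi
    have hc' := not_le.1 hc
    have hki : √(N : ℝ) < 2 * kap N B ^ i := hc'.trans_le hbi.2.2
    have hkj : kap N B ^ j ≤ 32 * √(N : ℝ) := by
      by_contra hcon
      rw [not_le] at hcon
      have : 32 * √(N : ℝ) * √(N : ℝ) < kap N B ^ j * (2 * kap N B ^ i) := mul_lt_mul'' hcon hki (by positivity) (by positivity)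
      nlinarith
    have hres := side hC0 hMVT (by positivity : 0 ≤ 3 * C1) hla e1 e2 e3 e4 hV1 (le_max_left V (gr N B j)) hb.1 hb.2.1
      (by linarith [hb.2.2]) (fun n => ((ArithmeticFunction.moebius n : ℤ) : ℂ))
      ((Ioc (gr N B i) (gr N B (i + 1))).filter (fun d => V < d))
      (Ioc ⌊(N1 : ℝ) / kap N B ^ (i + j)⌋₊ ⌊(N2 : ℝ) / kap N B ^ (i + j)⌋₊) (by
        intro k hk
        have h1 : ‖((ArithmeticFunction.moebius k : ℤ) : ℂ)‖ ≤ 1 := by
          rw [Complex.norm_intCast]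
          exact_mod_cast ArithmeticFunction.abs_moebius_le_one
        linarith)
      (prod_le hk1 hk2 hN2 hV hj (by omega)) hL0 hL hη
    refine le_trans (le_of_eq ?_) hres
    congr 1
    funext η
    congr 2
    rw [mul_comm (PM N B V i η), mul_assoc]
    unfold PM PQ PE
    rw [filt V (gr N B j)]

end Pool.Agent.L7h10.MW
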