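import Pool.Agent.L7h88.MW.Stm

/-! # Part DEC of project MW (helper88): decomposition of the type II sum into boxes -/

set_option autoImplicit false

namespace Pool.Agent.L7h10.MW

open Finset
open Pool.Agent.L7h88.MW
open Pool.Agent.H376R2.MR (er)

theorem pairs (h : ℕ → ℕ → ℂ) {M G : ℕ} (hMG : M ≤ G) :
    ∑ n ∈ Icc 1 M, ∑ d ∈ n.divisors, h d (n / d) =
      ∑ d ∈ Icc 1 G, ∑ m ∈ Icc 1 G, if d * m ≤ M then h d m else 0 := by
  classical
  have h1 : ∀ n ∈ Icc 1 M, ∑ d ∈ n.divisors, h d (n / d) =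
      ∑ p ∈ ((Icc 1 G ×ˢ Icc 1 G).filter (fun p => p.1 * p.2 ≤ M)).filter (fun p => p.1 * p.2 = n), h p.1 p.2 := by
    intro n hn
    rw [← Nat.sum_divisorsAntidiagonal (f := h)]
    refine Finset.sum_congr ?_ fun _ _ => rfl
    ext p
    rw [Finset.mem_Icc] at hn
    simp only [Nat.mem_divisorsAntidiagonal, mem_filter, mem_product, Finset.mem_Icc]
    constructor
    · rintro ⟨h1, h2⟩
      have hp1 : 1 ≤ p.1 := by
        rcases Nat.eq_zero_or_pos p.1 with h0 | h0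
        · rw [h0, zero_mul] at h1; omega
        · exact h0
      have hp2 : 1 ≤ p.2 := by
        rcases Nat.eq_zero_or_pos p.2 with h0 | h0
        · rw [h0, mul_zero] at h1; omega
        · exact h0
      refine ⟨⟨⟨⟨hp1, ?_⟩, hp2, ?_⟩, by omega⟩, h1⟩
      · have := Nat.le_mul_of_pos_right p.1 hp2; omega
      · have := Nat.le_mul_of_pos_left p.2 hp1; omega
    · rintro ⟨⟨_, _⟩, h1⟩
      exact ⟨h1, by omega⟩
  rw [Finset.sum_congr rfl h1, Finset.sum_fiberwise_of_maps_to, Finset.sum_filter, Finset.sum_product]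
  intro p hp
  simp only [mem_filter, mem_product, Finset.mem_Icc] at hp ⊢
  exact ⟨Nat.mul_pos (by omega) (by omega), hp.2⟩

theorem triples (g : ℕ → ℕ → ℕ → ℂ) {M G : ℕ} (hMG : M ≤ G)
    (hg : ∀ d k e, 1 ≤ d → 1 ≤ k → 1 ≤ e → g d k e ≠ 0 → d * k * e ≤ M) :
    ∑ n ∈ Icc 1 M, ∑ d ∈ n.divisors, ∑ k ∈ (n / d).divisors, g d k (n / d / k) =
      ∑ d ∈ Icc 1 G, ∑ k ∈ Icc 1 G, ∑ e ∈ Icc 1 G, g d k e := by
  classical
  rw [pairs (fun d m => ∑ k ∈ m.divisors, g d k (m / k)) hMG]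
  refine Finset.sum_congr rfl fun d hd => ?_
  have h1 : ∀ m ∈ Icc 1 G, (if d * m ≤ M then ∑ k ∈ m.divisors, g d k (m / k) else 0) =
      ∑ k ∈ m.divisors, (if d * (k * (m / k)) ≤ M then g d k (m / k) else 0) := by
    intro m hm
    have h2 : ∑ k ∈ m.divisors, (if d * (k * (m / k)) ≤ M then g d k (m / k) else 0) =
        ∑ k ∈ m.divisors, (if d * m ≤ M then g d k (m / k) else 0) := by
      refine Finset.sum_congr rfl fun k hk => ?_
      rw [Nat.mul_div_cancel' (Nat.dvd_of_mem_divisors hk)]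
    rw [h2]
    split_ifs
    · rfl
    · simp
  rw [Finset.sum_congr rfl h1, pairs (fun k e => if d * (k * e) ≤ M then g d k e else 0) (le_refl G)]
  refine Finset.sum_congr rfl fun k hk => Finset.sum_congr rfl fun e he => ?_
  rw [Finset.mem_Icc] at hd hk he
  by_cases h0 : g d k e = 0
  · simp [h0]
  · have h3 := hg d k e hd.1 hk.1 he.1 h0
    have h4 : d * (k * e) ≤ M := by rw [← mul_assoc]; exact h3
    have h5 : k * e ≤ G := by
      have := Nat.le_mul_of_pos_left (k * e) hd.1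
      omega
    rw [if_pos h5, if_pos h4]

section idx

variable {κ : ℝ} (hκ : 1 < κ)
include hκ

theorem ex_ix {d : ℕ} (hd : 2 ≤ d) : ∃ i : ℕ, κ ^ i < d ∧ (d : ℝ) ≤ κ ^ (i + 1) := by
  classical
  have h : ∃ n : ℕ, (d : ℝ) ≤ κ ^ n := by
    obtain ⟨n, hn⟩ := pow_unbounded_of_one_lt (d : ℝ) hκ
    exact ⟨n, hn.le⟩
  have h1 := Nat.find_spec h
  have h2 : Nat.find h ≠ 0 := by
    intro h0
    rw [h0, pow_zero] at h1
    have : (d : ℝ) < 2 := by linarith
    have : d < 2 := by exact_mod_cast this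
    omega
  obtain ⟨i, hi⟩ := Nat.exists_eq_succ_of_ne_zero h2
  refine ⟨i, ?_, ?_⟩
  · have := Nat.find_min h (m := i) (by omega)
    exact not_le.mp this
  · rw [hi] at h1
    exact h1

theorem ix_unique {d i j : ℕ} (h1 : κ ^ i < d) (h2 : (d : ℝ) ≤ κ ^ (i + 1)) (h3 : κ ^ j < d)
    (h4 : (d : ℝ) ≤ κ ^ (j + 1)) : i = j := by
  by_contra h
  rcases Nat.lt_or_gt_of_ne h with h | h
  · have : κ ^ (i + 1) ≤ κ ^ j := pow_le_pow_right₀ hκ.le h
    linarith
  · have : κ ^ (j + 1) ≤ κ ^ i := pow_le_pow_right₀ hκ.le h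
    linarith

end idx

open Classical in
/-- the index of the box of `d` -/
noncomputable def ix (κ : ℝ) (d : ℕ) : ℕ := if h : ∃ i : ℕ, κ ^ i < d ∧ (d : ℝ) ≤ κ ^ (i + 1) then h.choose else 0

theorem ix_spec {κ : ℝ} (hκ : 1 < κ) {d : ℕ} (hd : 2 ≤ d) : κ ^ (ix κ d) < d ∧ (d : ℝ) ≤ κ ^ (ix κ d + 1) := by
  have h := ex_ix hκ hd
  unfold ix
  rw [dif_pos h]
  exact h.choose_spec

theorem mem_box {N B : ℕ} (hκ : 1 < kap N B) {d : ℕ} (hd : 2 ≤ d) (i : ℕ) :
    d ∈ Ioc (gr N B i) (gr N B (i + 1)) ↔ i = ix (kap N B) d := by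
  have hs := ix_spec hκ hd
  have h0 : ∀ n : ℕ, 0 ≤ kap N B ^ n := fun n => by positivity
  rw [Finset.mem_Ioc]
  unfold gr
  rw [Nat.floor_lt (h0 _), Nat.le_floor_iff (h0 _)]
  constructor
  · rintro ⟨h1, h2⟩
    exact ix_unique hκ h1 h2 hs.1 hs.2
  · rintro rfl
    exact hs

theorem kap_bounds {N B : ℕ} (hN : 3 ≤ N) : 1 < kap N B ∧ kap N B ≤ 2 := by
  have hl : 1 ≤ Real.log N := by
    have h3 : (3 : ℝ) ≤ N := by exact_mod_cast hN
    rw [Real.le_log_iff_exp_le (by linarith)]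
    have := Real.exp_one_lt_d9
    linarith
  unfold kap
  have h1 : 1 ≤ Real.log N ^ B := one_le_pow₀ hl
  constructor
  · have : 0 < 1 / Real.log N ^ B := by positivity
    linarith
  · have : 1 / Real.log N ^ B ≤ 1 := by
      rw [div_le_one (by linarith)]
      exact h1
    linarith

theorem kap_nb {N B : ℕ} (hN : 3 ≤ N) : (32 * N : ℝ) ≤ kap N B ^ nb N B := by
  have h3 : (3 : ℝ) ≤ N := by exact_mod_cast hN
  have hl : 1 ≤ Real.log N := by
    rw [Real.le_log_iff_exp_le (by linarith)]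
    have := Real.exp_one_lt_d9
    linarith
  have h1 : 1 ≤ Real.log N ^ B := one_le_pow₀ hl
  have hκ := kap_bounds (B := B) hN
  have h32 : 0 ≤ Real.log (32 * N) := Real.log_nonneg (by linarith)
  rw [← Real.log_le_log_iff (by positivity) (by have := hκ.1; positivity), Real.log_pow]
  have hlk : 1 / (2 * Real.log N ^ B) ≤ Real.log (kap N B) := by
    unfold kap
    have hx : 0 ≤ 1 / Real.log N ^ B := by positivity
    have h4 := Real.le_log_one_add_of_nonneg hx
    refine le_trans ?_ h4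
    have hx1 : 1 / Real.log N ^ B ≤ 1 := by
      rw [div_le_one (by linarith)]
      exact h1
    rw [le_div_iff₀ (by linarith)]
    have : 1 / (2 * Real.log N ^ B) = (1 / Real.log N ^ B) / 2 := by field_simp
    rw [this]
    nlinarith
  have hn : 2 * Real.log (32 * N) * Real.log N ^ B ≤ nb N B := Nat.le_ceil _
  calc Real.log (32 * N) = (2 * Real.log (32 * N) * Real.log N ^ B) * (1 / (2 * Real.log N ^ B)) := by
        field_simp
    _ ≤ nb N B * Real.log (kap N B) := by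
        apply mul_le_mul hn hlk (by positivity) (by positivity)

/-- `μ(d) Λ(k)` for `d, k > V` -/
noncomputable def uu (V d k : ℕ) : ℂ := if V < d ∧ V < k then
  ((ArithmeticFunction.moebius d : ℤ) : ℂ) * ((ArithmeticFunction.vonMangoldt k : ℝ) : ℂ) else 0

open Classical in
/-- `1` if `N1 < e κ^h ≤ N2` -/
noncomputable def pp (κ : ℝ) (N1 N2 h e : ℕ) : ℂ := if (N1 : ℝ) < e * κ ^ h ∧ (e : ℝ) * κ ^ h ≤ N2 then 1 else 0

theorem bV_eq (V n : ℕ) : bV V n = ∑ d ∈ n.divisors, ∑ k ∈ (n / d).divisors, uu V d k := by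
  unfold bV uu
  rw [Finset.sum_filter]
  refine Finset.sum_congr rfl fun d hd => ?_
  rw [Finset.sum_filter]
  split_ifs with h
  · rw [Finset.mul_sum]
    refine Finset.sum_congr rfl fun k hk => ?_
    by_cases hk : V < k
    · rw [if_pos hk, if_pos ⟨h, hk⟩]
    · rw [if_neg hk, if_neg (fun h' => hk h'.2), mul_zero]
  · rw [Finset.sum_eq_zero]
    intro k hk
    rw [if_neg (fun h' => h h'.1)]

theorem uu_norm (V d k : ℕ) : ‖uu V d k‖ ≤ ArithmeticFunction.vonMangoldt k := by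
  unfold uu
  split_ifs with h
  · rw [norm_mul, Complex.norm_real, Real.norm_of_nonneg ArithmeticFunction.vonMangoldt_nonneg]
    have h1 : ‖((ArithmeticFunction.moebius d : ℤ) : ℂ)‖ ≤ 1 := by
      rw [Complex.norm_intCast]
      exact_mod_cast ArithmeticFunction.abs_moebius_le_one
    calc _ ≤ 1 * ArithmeticFunction.vonMangoldt k :=
          mul_le_mul_of_nonneg_right h1 ArithmeticFunction.vonMangoldt_nonneg
      _ = _ := one_mul _
  · rw [norm_zero]
    exact ArithmeticFunction.vonMangoldt_nonneg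

theorem er_prod {η : ℝ} {d k e : ℕ} (hd : 1 ≤ d) (hk : 1 ≤ k) (he : 1 ≤ e) :
    er (-η) (Real.log d) * er (-η) (Real.log k) * er (-η) (Real.log e) = er (-η) (Real.log ((d * k * e : ℕ) : ℝ)) := by
  have hd' : (d : ℝ) ≠ 0 := by positivity
  have hk' : (k : ℝ) ≠ 0 := by positivity
  have he' : (e : ℝ) ≠ 0 := by positivity
  push_cast
  rw [Real.log_mul (mul_ne_zero hd' hk') he', Real.log_mul hd' hk']
  unfold er
  rw [← Complex.exp_add, ← Complex.exp_add]
  congr 1
  push_cast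
  ring

theorem PM_eq {N B V G : ℕ} (hκ : 1 < kap N B) (hV : 1 ≤ V) {i : ℕ} (hG : gr N B (i + 1) ≤ G) (η : ℝ) :
    PM N B V i η = ∑ d ∈ Icc 1 G, (if i = ix (kap N B) d ∧ V < d then
      ((ArithmeticFunction.moebius d : ℤ) : ℂ) * er (-η) (Real.log d) else 0) := by
  classical
  unfold PM DS
  rw [← Finset.sum_filter]
  refine Finset.sum_congr ?_ fun _ _ => rfl
  ext d
  simp only [mem_filter]
  constructor
  · rintro ⟨h1, h2⟩
    have h3 := (mem_box hκ (by omega : 2 ≤ d) i).1 h1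
    rw [Finset.mem_Ioc] at h1
    exact ⟨Finset.mem_Icc.2 ⟨by omega, by omega⟩, h3, h2⟩
  · rintro ⟨h1, h2, h3⟩
    exact ⟨(mem_box hκ (by omega : 2 ≤ d) i).2 h2, h3⟩

theorem PQ_eq {N B V G : ℕ} (hκ : 1 < kap N B) (hV : 1 ≤ V) {i : ℕ} (hG : gr N B (i + 1) ≤ G) (η : ℝ) :
    PQ N B V i η = ∑ d ∈ Icc 1 G, (if i = ix (kap N B) d ∧ V < d then
      ((ArithmeticFunction.vonMangoldt d : ℝ) : ℂ) * er (-η) (Real.log d) else 0) := by
  classical
  unfold PQ DS
  rw [← Finset.sum_filter]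
  refine Finset.sum_congr ?_ fun _ _ => rfl
  ext d
  simp only [mem_filter]
  constructor
  · rintro ⟨h1, h2⟩
    have h3 := (mem_box hκ (by omega : 2 ≤ d) i).1 h1
    rw [Finset.mem_Ioc] at h1
    exact ⟨Finset.mem_Icc.2 ⟨by omega, by omega⟩, h3, h2⟩
  · rintro ⟨h1, h2, h3⟩
    exact ⟨(mem_box hκ (by omega : 2 ≤ d) i).2 h2, h3⟩

theorem PE_eq {N B N1 N2 G : ℕ} (hκ : 1 < kap N B) (hG : N2 ≤ G) (h : ℕ) (η : ℝ) :
    PE N B N1 N2 h η = ∑ e ∈ Icc 1 G, pp (kap N B) N1 N2 h e * er (-η) (Real.log e) := by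
  classical
  unfold PE DS pp
  simp only [ite_mul, one_mul, zero_mul]
  rw [← Finset.sum_filter]
  refine Finset.sum_congr ?_ fun _ _ => rfl
  ext e
  have hp : 0 < kap N B ^ h := pow_pos (by linarith) h
  have hp1 : 1 ≤ kap N B ^ h := one_le_pow₀ hκ.le
  simp only [mem_filter, Finset.mem_Icc, Finset.mem_Ioc]
  rw [Nat.floor_lt (by positivity), Nat.le_floor_iff (by positivity), div_lt_iff₀ hp, le_div_iff₀ hp]
  constructor
  · rintro ⟨h1, h2⟩
    refine ⟨⟨?_, ?_⟩, h1, h2⟩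
    · rcases Nat.eq_zero_or_pos e with h0 | h0
      · rw [h0, Nat.cast_zero, zero_mul] at h1
        have : (0 : ℝ) ≤ N1 := Nat.cast_nonneg _
        linarith
      · exact h0
    · have h3 : (e : ℝ) ≤ N2 := by
        have : (e : ℝ) * 1 ≤ e * kap N B ^ h := mul_le_mul_of_nonneg_left hp1 (Nat.cast_nonneg _)
        linarith
      have : e ≤ N2 := by exact_mod_cast h3
      omega
  · rintro ⟨_, h1, h2⟩
    exact ⟨h1, h2⟩

theorem box_eq {N B V N1 N2 G : ℕ} (hκ : 1 < kap N B) (hV : 1 ≤ V) (hG2 : N2 ≤ G) {i j : ℕ}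
    (hi : gr N B (i + 1) ≤ G) (hj : gr N B (j + 1) ≤ G) (η : ℝ) :
    PM N B V i η * PQ N B V j η * PE N B N1 N2 (i + j) η =
      ∑ x ∈ Icc 1 G ×ˢ Icc 1 G ×ˢ Icc 1 G, (if i = ix (kap N B) x.1 ∧ j = ix (kap N B) x.2.1 then
        uu V x.1 x.2.1 * pp (kap N B) N1 N2 (i + j) x.2.2 * er (-η) (Real.log ((x.1 * x.2.1 * x.2.2 : ℕ) : ℝ)) else 0) := by
  classical
  rw [PM_eq hκ hV hi, PQ_eq hκ hV hj, PE_eq hκ hG2, Finset.sum_mul_sum, Finset.sum_mul, Finset.sum_product]
  refine Finset.sum_congr rfl fun d hd => ?_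
  rw [Finset.sum_mul_sum, Finset.sum_product]
  refine Finset.sum_congr rfl fun k hk => Finset.sum_congr rfl fun e he => ?_
  rw [Finset.mem_Icc] at hd hk he
  simp only
  rw [← er_prod hd.1 hk.1 he.1]
  unfold uu
  by_cases h1 : i = ix (kap N B) d
  · by_cases h2 : j = ix (kap N B) k
    · by_cases h3 : V < d
      · by_cases h4 : V < k
        · rw [if_pos ⟨h1, h3⟩, if_pos ⟨h2, h4⟩, if_pos ⟨h1, h2⟩, if_pos ⟨h3, h4⟩]
          ring
        · rw [if_neg (fun h => h4 h.2 : ¬ (j = ix (kap N B) k ∧ V < k)), if_neg (fun h => h4 h.2 : ¬ (V < d ∧ V < k))]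
          simp
      · rw [if_neg (fun h => h3 h.2 : ¬ (i = ix (kap N B) d ∧ V < d)), if_neg (fun h => h3 h.1 : ¬ (V < d ∧ V < k))]
        simp
    · rw [if_neg (fun h => h2 h.1 : ¬ (j = ix (kap N B) k ∧ V < k)),
        if_neg (fun h => h2 h.2 : ¬ (i = ix (kap N B) d ∧ j = ix (kap N B) k))]
      simp
  · rw [if_neg (fun h => h1 h.1 : ¬ (i = ix (kap N B) d ∧ V < d)),
      if_neg (fun h => h1 h.1 : ¬ (i = ix (kap N B) d ∧ j = ix (kap N B) k))]
    simp

theorem gr_mono {N B : ℕ} (hκ : 1 < kap N B) {i j : ℕ} (h : i ≤ j) : gr N B i ≤ gr N B j :=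
  Nat.floor_mono (pow_le_pow_right₀ hκ.le h)

/-- the indicator of a nonzero summand controls the indices and the product -/
theorem ctrl {N B N1 N2 V : ℕ} (hN : 3 ≤ N) (h2 : N2 ≤ 16 * N) (hV : 1 ≤ V) {d k e : ℕ}
    (hu : uu V d k ≠ 0) (hp : pp (kap N B) N1 N2 (ix (kap N B) d + ix (kap N B) k) e ≠ 0) :
    ix (kap N B) d < nb N B ∧ ix (kap N B) k < nb N B ∧ d * k * e ≤ 64 * N := by
  have hκ := (kap_bounds (B := B) hN).1
  have hκ2 := (kap_bounds (B := B) hN).2
  have hnb := kap_nb (B := B) hN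
  have h3 : (3 : ℝ) ≤ N := by exact_mod_cast hN
  have hVd : V < d ∧ V < k := by
    by_contra h
    exact hu (by unfold uu; rw [if_neg h])
  have hpe : (N1 : ℝ) < e * kap N B ^ (ix (kap N B) d + ix (kap N B) k) ∧
      (e : ℝ) * kap N B ^ (ix (kap N B) d + ix (kap N B) k) ≤ N2 := by
    by_contra h
    exact hp (by unfold pp; rw [if_neg h])
  set κ := kap N B with hκdef
  set a := ix κ d with ha
  set b := ix κ k with hb
  have he : 1 ≤ e := by
    rcases Nat.eq_zero_or_pos e with h0 | h0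
    · have h1 := hpe.1
      rw [h0, Nat.cast_zero, zero_mul] at h1
      have : (0 : ℝ) ≤ N1 := Nat.cast_nonneg _
      linarith
    · exact h0
  have he' : (1 : ℝ) ≤ e := by exact_mod_cast he
  have h2' : (N2 : ℝ) ≤ 16 * N := by exact_mod_cast h2
  have hpow : κ ^ (a + b) ≤ 16 * N := by
    have h0 : 0 ≤ κ ^ (a + b) := by positivity
    nlinarith [hpe.2]
  have hlt : κ ^ (a + b) < κ ^ nb N B := by linarith
  have hab : a + b < nb N B := (pow_lt_pow_iff_right₀ hκ).1 hlt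
  refine ⟨by omega, by omega, ?_⟩
  have hd := ix_spec hκ (by omega : 2 ≤ d)
  have hk := ix_spec hκ (by omega : 2 ≤ k)
  rw [← ha] at hd
  rw [← hb] at hk
  have h5 : (d : ℝ) * k ≤ κ ^ (a + 1) * κ ^ (b + 1) := mul_le_mul hd.2 hk.2 (by positivity) (by positivity)
  have h6 : (d : ℝ) * k * e ≤ 64 * N := by
    calc (d : ℝ) * k * e ≤ κ ^ (a + 1) * κ ^ (b + 1) * e := mul_le_mul_of_nonneg_right h5 (by positivity)
      _ = κ ^ 2 * (e * κ ^ (a + b)) := by ring
      _ ≤ 2 ^ 2 * N2 := by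
          apply mul_le_mul _ hpe.2 (by positivity) (by positivity)
          exact pow_le_pow_left₀ (by positivity) hκ2 2
      _ ≤ 64 * N := by linarith
  exact_mod_cast h6

theorem boxes {N B V N1 N2 : ℕ} (hN : 3 ≤ N) (h2 : N2 ≤ 16 * N) (hV : 1 ≤ V) (η : ℝ) :
    ∑ i ∈ range (nb N B), ∑ j ∈ range (nb N B), PM N B V i η * PQ N B V j η * PE N B N1 N2 (i + j) η =
      ∑ n ∈ Icc 1 (64 * N), (∑ d ∈ n.divisors, ∑ k ∈ (n / d).divisors,
        uu V d k * pp (kap N B) N1 N2 (ix (kap N B) d + ix (kap N B) k) (n / d / k)) * er (-η) (Real.log n) := by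
  classical
  have hκ := (kap_bounds (B := B) hN).1
  set G := max (gr N B (nb N B)) (64 * N) with hG
  have hGr : ∀ i ∈ range (nb N B), gr N B (i + 1) ≤ G := by
    intro i hi
    rw [Finset.mem_range] at hi
    exact le_trans (gr_mono hκ (by omega)) (le_max_left _ _)
  have hG64 : 64 * N ≤ G := le_max_right _ _
  have h1 : ∑ i ∈ range (nb N B), ∑ j ∈ range (nb N B), PM N B V i η * PQ N B V j η * PE N B N1 N2 (i + j) η =
      ∑ y ∈ range (nb N B) ×ˢ range (nb N B), ∑ x ∈ Icc 1 G ×ˢ Icc 1 G ×ˢ Icc 1 G,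
        (if y.1 = ix (kap N B) x.1 ∧ y.2 = ix (kap N B) x.2.1 then
        uu V x.1 x.2.1 * pp (kap N B) N1 N2 (y.1 + y.2) x.2.2 * er (-η) (Real.log ((x.1 * x.2.1 * x.2.2 : ℕ) : ℝ)) else 0) := by
    rw [Finset.sum_product]
    exact Finset.sum_congr rfl fun i hi => Finset.sum_congr rfl fun j hj =>
      box_eq hκ hV (by omega) (hGr i hi) (hGr j hj) η
  rw [h1, Finset.sum_comm]
  have h3 : ∀ x ∈ Icc 1 G ×ˢ Icc 1 G ×ˢ Icc 1 G, ∑ y ∈ range (nb N B) ×ˢ range (nb N B),
        (if y.1 = ix (kap N B) x.1 ∧ y.2 = ix (kap N B) x.2.1 then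
        uu V x.1 x.2.1 * pp (kap N B) N1 N2 (y.1 + y.2) x.2.2 * er (-η) (Real.log ((x.1 * x.2.1 * x.2.2 : ℕ) : ℝ)) else 0) =
      uu V x.1 x.2.1 * pp (kap N B) N1 N2 (ix (kap N B) x.1 + ix (kap N B) x.2.1) x.2.2 *
        er (-η) (Real.log ((x.1 * x.2.1 * x.2.2 : ℕ) : ℝ)) := by
    intro x hx
    rw [Finset.sum_eq_single (ix (kap N B) x.1, ix (kap N B) x.2.1)]
    · simp
    · rintro ⟨i, j⟩ _ hne
      rw [if_neg]
      rintro ⟨h1, h2⟩
      exact hne (Prod.ext h1 h2)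
    · intro hn
      simp only [and_self, if_true]
      by_contra h0
      have hu : uu V x.1 x.2.1 ≠ 0 := by
        intro h
        exact h0 (by rw [h]; simp)
      have hp : pp (kap N B) N1 N2 (ix (kap N B) x.1 + ix (kap N B) x.2.1) x.2.2 ≠ 0 := by
        intro h
        exact h0 (by rw [h]; simp)
      obtain ⟨c1, c2, _⟩ := ctrl hN h2 hV hu hp
      exact hn (Finset.mem_product.2 ⟨Finset.mem_range.2 c1, Finset.mem_range.2 c2⟩)
  rw [Finset.sum_congr rfl h3, Finset.sum_product]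
  have h4 := triples (fun d k e => uu V d k * pp (kap N B) N1 N2 (ix (kap N B) d + ix (kap N B) k) e *
    er (-η) (Real.log ((d * k * e : ℕ) : ℝ))) hG64 (by
      intro d k e _ _ _ h0
      have hu : uu V d k ≠ 0 := by
        intro h
        exact h0 (by rw [h]; simp)
      have hp : pp (kap N B) N1 N2 (ix (kap N B) d + ix (kap N B) k) e ≠ 0 := by
        intro h
        exact h0 (by rw [h]; simp)
      exact (ctrl hN h2 hV hu hp).2.2)
  rw [show (∑ d ∈ Icc 1 G, ∑ y ∈ Icc 1 G ×ˢ Icc 1 G, uu V d y.1 *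
      pp (kap N B) N1 N2 (ix (kap N B) d + ix (kap N B) y.1) y.2 * er (-η) (Real.log ((d * y.1 * y.2 : ℕ) : ℝ))) =
      ∑ d ∈ Icc 1 G, ∑ k ∈ Icc 1 G, ∑ e ∈ Icc 1 G, uu V d k *
      pp (kap N B) N1 N2 (ix (kap N B) d + ix (kap N B) k) e * er (-η) (Real.log ((d * k * e : ℕ) : ℝ)) from
      Finset.sum_congr rfl fun d _ => Finset.sum_product _ _ _, ← h4]
  refine Finset.sum_congr rfl fun n hn => ?_
  rw [Finset.sum_mul]
  refine Finset.sum_congr rfl fun d hd => ?_
  rw [Finset.sum_mul]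
  refine Finset.sum_congr rfl fun k hk => ?_
  have h5 : d * k * (n / d / k) = n := by
    rw [mul_assoc, Nat.mul_div_cancel' (Nat.dvd_of_mem_divisors hk), Nat.mul_div_cancel' (Nat.dvd_of_mem_divisors hd)]
  simp only [h5]

theorem s_DEC : S_DEC := by
  classical
  intro B hB
  refine ⟨3, fun N N1 N2 V hN h1 h12 h2 hV => ?_⟩
  have hκ := (kap_bounds (B := B) hN).1
  set κ := kap N B with hκd
  set r : ℕ → ℂ := fun n => ∑ d ∈ n.divisors, ∑ k ∈ (n / d).divisors,
    uu V d k * ((if N1 < n ∧ n ≤ N2 then 1 else 0) - pp κ N1 N2 (ix κ d + ix κ k) (n / d / k)) with hr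
  have hdiff : ∀ (P : Prop) [Decidable P] (h e : ℕ), ‖((if P then 1 else 0) - pp κ N1 N2 h e : ℂ)‖ ≤ 1 := by
    intro P _ h e
    unfold pp
    split_ifs <;> simp
  refine ⟨r, ?_, ?_, ?_⟩
  · intro n
    rcases Nat.eq_zero_or_pos n with h0 | h0
    · simp [hr, h0]
    calc ‖r n‖ ≤ ∑ d ∈ n.divisors, ∑ k ∈ (n / d).divisors, ArithmeticFunction.vonMangoldt k := by
          refine (norm_sum_le _ _).trans (Finset.sum_le_sum fun d _ => (norm_sum_le _ _).trans
            (Finset.sum_le_sum fun k _ => ?_))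
          rw [norm_mul]
          calc _ ≤ ArithmeticFunction.vonMangoldt k * 1 :=
                mul_le_mul (uu_norm V d k) (hdiff _ _ _) (norm_nonneg _) ArithmeticFunction.vonMangoldt_nonneg
            _ = _ := mul_one _
      _ ≤ ∑ d ∈ n.divisors, Real.log n := by
          refine Finset.sum_le_sum fun d hd => ?_
          rw [ArithmeticFunction.vonMangoldt_sum]
          have hdn : n / d ≤ n := Nat.div_le_self _ _
          have hpos : 0 < n / d := Nat.div_pos (Nat.le_of_dvd h0 (Nat.dvd_of_mem_divisors hd))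
            (Nat.pos_of_mem_divisors hd)
          exact Real.log_le_log (by exact_mod_cast hpos) (by exact_mod_cast hdn)
      _ = (n.divisors.card : ℝ) * Real.log n := by rw [Finset.sum_const, nsmul_eq_mul]
  · intro n hn
    obtain ⟨d, hd, h3⟩ := Finset.exists_ne_zero_of_sum_ne_zero hn
    obtain ⟨k, hk, h4⟩ := Finset.exists_ne_zero_of_sum_ne_zero h3
    have hu : uu V d k ≠ 0 := fun h => h4 (by rw [h, zero_mul])
    have hp : ((if N1 < n ∧ n ≤ N2 then 1 else 0) - pp κ N1 N2 (ix κ d + ix κ k) (n / d / k) : ℂ) ≠ 0 :=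
      fun h => h4 (by rw [h, mul_zero])
    have hVd : V < d ∧ V < k := by
      by_contra h
      exact hu (by unfold uu; rw [if_neg h])
    have hds := ix_spec hκ (by omega : 2 ≤ d)
    have hks := ix_spec hκ (by omega : 2 ≤ k)
    set a := ix κ d with ha
    set b := ix κ k with hb
    set e := n / d / k with he
    have h5 : d * k * e = n := by
      rw [he, mul_assoc, Nat.mul_div_cancel' (Nat.dvd_of_mem_divisors hk), Nat.mul_div_cancel' (Nat.dvd_of_mem_divisors hd)]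
    have hn0 : n ≠ 0 := by
      rintro rfl
      simp at hd
    have he0 : 1 ≤ e := by
      rcases Nat.eq_zero_or_pos e with h0 | h0
      · rw [h0, mul_zero] at h5; exact absurd h5.symm hn0
      · exact h0
    have he1 : (1 : ℝ) ≤ e := by exact_mod_cast he0
    have hnr : (n : ℝ) = d * k * e := by rw [← h5]; push_cast; ring
    have hm1 : (e : ℝ) * κ ^ (a + b) < n := by
      rw [hnr, pow_add]
      have : κ ^ a * κ ^ b < (d : ℝ) * k :=
        mul_lt_mul'' hds.1 hks.1 (by positivity) (by positivity)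
      nlinarith
    have hm2 : (n : ℝ) ≤ κ ^ 2 * (e * κ ^ (a + b)) := by
      have h6 : (d : ℝ) * k ≤ κ ^ (a + 1) * κ ^ (b + 1) := mul_le_mul hds.2 hks.2 (by positivity) (by positivity)
      calc (n : ℝ) = d * k * e := hnr
        _ ≤ κ ^ (a + 1) * κ ^ (b + 1) * e := mul_le_mul_of_nonneg_right h6 (by positivity)
        _ = _ := by ring
    have hκ2 : 0 ≤ κ ^ 2 := by positivity
    unfold pp at hp
    by_cases hA : N1 < n ∧ n ≤ N2
    · left
      rw [if_pos hA] at hp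
      have hnot : ¬ ((N1 : ℝ) < e * κ ^ (a + b) ∧ (e : ℝ) * κ ^ (a + b) ≤ N2) := by
        intro h
        rw [if_pos h] at hp
        exact hp (by ring)
      have hn1 : (N1 : ℝ) < n := by exact_mod_cast hA.1
      have hn2 : (n : ℝ) ≤ N2 := by exact_mod_cast hA.2
      have h7 : (e : ℝ) * κ ^ (a + b) ≤ N1 := by
        by_contra h
        exact hnot ⟨not_le.1 h, by linarith⟩
      exact ⟨hn1, hm2.trans (mul_le_mul_of_nonneg_left h7 hκ2)⟩
    · right
      rw [if_neg hA] at hp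
      have hyes : (N1 : ℝ) < e * κ ^ (a + b) ∧ (e : ℝ) * κ ^ (a + b) ≤ N2 := by
        by_contra h
        rw [if_neg h] at hp
        exact hp (by ring)
      have hn1 : N1 < n := by
        have : (N1 : ℝ) < n := by linarith [hyes.1]
        exact_mod_cast this
      have hn2 : N2 < n := by
        by_contra h
        exact hA ⟨hn1, not_lt.1 h⟩
      exact ⟨by exact_mod_cast hn2, hm2.trans (mul_le_mul_of_nonneg_left hyes.2 hκ2)⟩
  · intro η
    rw [boxes hN h2 hV η]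
    have hA : DS (bV V) (Ioc N1 N2) η = ∑ n ∈ Icc 1 (64 * N), (∑ d ∈ n.divisors, ∑ k ∈ (n / d).divisors,
        uu V d k * (if N1 < n ∧ n ≤ N2 then 1 else 0)) * er (-η) (Real.log n) := by
      unfold DS
      have hsub : Ioc N1 N2 = (Icc 1 (64 * N)).filter (fun n => N1 < n ∧ n ≤ N2) := by
        ext n
        simp only [mem_filter, Finset.mem_Icc, Finset.mem_Ioc]
        constructor
        · rintro ⟨h3, h4⟩
          exact ⟨⟨by omega, by omega⟩, h3, h4⟩
        · rintro ⟨_, h3⟩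
          exact h3
      rw [hsub, Finset.sum_filter]
      refine Finset.sum_congr rfl fun n _ => ?_
      split_ifs with h
      · simp only [mul_one]
        rw [bV_eq]
      · simp
    rw [hA]
    unfold DS
    rw [← Finset.sum_add_distrib]
    refine Finset.sum_congr rfl fun n _ => ?_
    rw [hr, ← add_mul]
    congr 1
    rw [← Finset.sum_add_distrib]
    refine Finset.sum_congr rfl fun d _ => ?_
    rw [← Finset.sum_add_distrib]
    refine Finset.sum_congr rfl fun k _ => ?_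
    ring

end Pool.Agent.L7h10.MW
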